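import Pool.Agent.N382.BH.Defs

set_option autoImplicit false

/-!
# The Berge extremal function of `1_1 × C_4` is of order `m ^ (5/2)`, not `m ^ 2`

A column with three ones contains a triple if and only if it is equal to it, so it is enough to find a
3-uniform hypergraph with many edges and without `K(1,2,2)`.  Vertices: `(t, a, b)` with `t ∈ {0,1,2}` and
`a, b` in a field with `p` elements.  Edges: triples of vertices with different `t` and nonzero `a`, `b` such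
that the product of the `a`'s plus the product of the `b`'s is `1`.  (A 3-partite form of a construction of
Mubayi for the Turán numbers of `K(1,2,2)`.)
-/

namespace Pool.Agent.Results.MP_4da166_co.FiveHalves

open Finset Filter Asymptotics Pool.Agent.N382.BH

/-- the matrix `[1]` -/
def one1 : Matrix (Fin 1) (Fin 1) Bool := fun _ _ => true

/-- `C_4 = I_2 × I_2` -/
def C4 : Matrix (Fin 2 ⊕ Fin 2) (Fin 2 × Fin 2) Bool := prod (idm 2) (idm 2)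

/-- `1_1 × C_4` -/
def F : Matrix (Fin 1 ⊕ (Fin 2 ⊕ Fin 2)) (Fin 1 × (Fin 2 × Fin 2)) Bool := prod one1 C4

section field

variable (p : ℕ) [hp : Fact p.Prime]

/-- vertices -/
abbrev V (p : ℕ) : Type := Fin 3 × ZMod p × ZMod p

open Classical in
/-- edges -/
noncomputable def E : Finset (Finset (V p)) :=
  univ.filter (fun e => e.card = 3 ∧ (∀ v ∈ e, ∀ w ∈ e, v.1 = w.1 → v = w) ∧
    (∀ v ∈ e, v.2.1 ≠ 0 ∧ v.2.2 ≠ 0) ∧ ∏ v ∈ e, v.2.1 + ∏ v ∈ e, v.2.2 = 1)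

variable {p}

lemma edge_eq {r x u : V p} (h1 : r ≠ x) (h2 : r ≠ u) (h3 : x ≠ u) {e : Finset (V p)} (he : e ∈ E p)
    (hr : r ∈ e) (hx : x ∈ e) (hu : u ∈ e) :
    r.2.1 * x.2.1 * u.2.1 + r.2.2 * x.2.2 * u.2.2 = 1 ∧
      (r.2.1 ≠ 0 ∧ r.2.2 ≠ 0) ∧ (x.2.1 ≠ 0 ∧ x.2.2 ≠ 0) ∧ (u.2.1 ≠ 0 ∧ u.2.2 ≠ 0) ∧
      r.1 ≠ x.1 ∧ r.1 ≠ u.1 ∧ x.1 ≠ u.1 := by
  classical
  rw [E, mem_filter] at he
  obtain ⟨-, hc, hpart, hnz, hsum⟩ := he
  have hcard : ({r, x, u} : Finset (V p)).card = 3 := by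
    rw [card_insert_of_notMem, card_insert_of_notMem, card_singleton]
    · simpa using h3
    · simp [h1, h2]
  have heq : ({r, x, u} : Finset (V p)) = e := by
    apply eq_of_subset_of_card_le
    · intro v hv
      simp only [mem_insert, mem_singleton] at hv
      rcases hv with rfl | rfl | rfl <;> assumption
    · rw [hc, hcard]
  refine ⟨?_, hnz r hr, hnz x hx, hnz u hu, fun h => h1 (hpart r hr x hx h),
    fun h => h2 (hpart r hr u hu h), fun h => h3 (hpart x hx u hu h)⟩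
  rw [← heq] at hsum
  rw [prod_insert (by simp [h1, h2]), prod_insert (by simpa using h3), prod_singleton,
    prod_insert (by simp [h1, h2]), prod_insert (by simpa using h3), prod_singleton] at hsum
  rw [← hsum]
  ring

/-- The algebraic core: no `K(1,2,2)`. -/
lemma core {r1 r2 x1 y1 x2 y2 u1 w1 u2 w2 : ZMod p} (hr1 : r1 ≠ 0) (hr2 : r2 ≠ 0)
    (hx : ¬ (x1 = x2 ∧ y1 = y2)) (hw1 : w1 ≠ 0)
    (e11 : r1 * x1 * u1 + r2 * y1 * w1 = 1) (e12 : r1 * x1 * u2 + r2 * y1 * w2 = 1)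
    (e21 : r1 * x2 * u1 + r2 * y2 * w1 = 1) (e22 : r1 * x2 * u2 + r2 * y2 * w2 = 1) :
    u1 = u2 ∧ w1 = w2 := by
  have a1 : r1 * (x1 - x2) * u1 + r2 * (y1 - y2) * w1 = 0 := by linear_combination e11 - e21
  have a2 : r1 * (x1 - x2) * u2 + r2 * (y1 - y2) * w2 = 0 := by linear_combination e12 - e22
  have hx12 : x1 - x2 ≠ 0 := by
    intro h
    rw [h, mul_zero, zero_mul, zero_add] at a1
    have hy : y1 - y2 = 0 := by
      rcases mul_eq_zero.1 a1 with h1 | h1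
      · exact (mul_eq_zero.1 h1).resolve_left hr2
      · exact absurd h1 hw1
    exact hx ⟨sub_eq_zero.1 h, sub_eq_zero.1 hy⟩
  have d : u1 * w2 - u2 * w1 = 0 := by
    have h : (r1 * (x1 - x2)) * (u1 * w2 - u2 * w1) = 0 := by linear_combination w2 * a1 - w1 * a2
    exact (mul_eq_zero.1 h).resolve_left (mul_ne_zero hr1 hx12)
  have k1 : u1 - u2 = 0 := by
    linear_combination (-u1) * e12 + u2 * e11 + r2 * y1 * d
  have k2 : w1 - w2 = 0 := by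
    linear_combination (-w1) * e12 + w2 * e11 - r1 * x1 * d
  exact ⟨sub_eq_zero.1 k1, sub_eq_zero.1 k2⟩

/-- There is no `K(1,2,2)`. -/
lemma no_box (R X₀ X₁ U₀ U₁ : V p) (hRX : R ≠ X₀) (hRX' : R ≠ X₁) (hRU : R ≠ U₀) (hRU' : R ≠ U₁)
    (h00 : X₀ ≠ U₀) (h01 : X₀ ≠ U₁) (h10 : X₁ ≠ U₀) (h11 : X₁ ≠ U₁) (hX : X₀ ≠ X₁) (hU : U₀ ≠ U₁)
    {e00 e01 e10 e11 : Finset (V p)}
    (m00 : e00 ∈ E p) (m01 : e01 ∈ E p) (m10 : e10 ∈ E p) (m11 : e11 ∈ E p)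
    (a00 : R ∈ e00 ∧ X₀ ∈ e00 ∧ U₀ ∈ e00) (a01 : R ∈ e01 ∧ X₀ ∈ e01 ∧ U₁ ∈ e01)
    (a10 : R ∈ e10 ∧ X₁ ∈ e10 ∧ U₀ ∈ e10) (a11 : R ∈ e11 ∧ X₁ ∈ e11 ∧ U₁ ∈ e11) : False := by
  obtain ⟨s00, ⟨n1, n2⟩, -, ⟨n3, n4⟩, p1, p2, p3⟩ := edge_eq hRX hRU h00 m00 a00.1 a00.2.1 a00.2.2
  obtain ⟨s01, -, -, -, q1, q2, q3⟩ := edge_eq hRX hRU' h01 m01 a01.1 a01.2.1 a01.2.2
  obtain ⟨s10, -, -, -, t1, t2, t3⟩ := edge_eq hRX' hRU h10 m10 a10.1 a10.2.1 a10.2.2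
  obtain ⟨s11, -⟩ := edge_eq hRX' hRU' h11 m11 a11.1 a11.2.1 a11.2.2
  have fin3 : ∀ a b c d : Fin 3, a ≠ b → a ≠ c → b ≠ c → a ≠ d → b ≠ d → c = d := by decide
  have hUU : U₀.1 = U₁.1 := fin3 R.1 X₀.1 U₀.1 U₁.1 p1 p2 p3 q2 q3
  have hXX : X₀.1 = X₁.1 := fin3 R.1 U₀.1 X₀.1 X₁.1 p2 p1 p3.symm t1 t3.symm
  have hx : ¬ (X₀.2.1 = X₁.2.1 ∧ X₀.2.2 = X₁.2.2) := fun h =>
    hX (Prod.ext hXX (Prod.ext h.1 h.2))
  obtain ⟨h1, h2⟩ := core n1 n2 hx n4 s00 s01 s10 s11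
  exact hU (Prod.ext hUU (Prod.ext h1 h2))

/-- The parameters of the edges that we count. -/
abbrev Par (p : ℕ) : Type :=
  ((ZMod p)ˣ × (ZMod p)ˣ) × ((ZMod p)ˣ × (ZMod p)ˣ) × {x : ZMod p // x ≠ 0 ∧ x ≠ 1}

/-- The third vertex. -/
noncomputable def third (t : Par p) : V p :=
  (2, t.2.2.1 / (t.1.1 * t.2.1.1), (1 - t.2.2.1) / (t.1.2 * t.2.1.2))

open Classical in
/-- The edge with given parameters. -/
noncomputable def edge (t : Par p) : Finset (V p) :=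
  {((0 : Fin 3), (t.1.1 : ZMod p), (t.1.2 : ZMod p)), ((1 : Fin 3), (t.2.1.1 : ZMod p), (t.2.1.2 : ZMod p)),
    third t}

lemma edge_mem (t : Par p) : edge t ∈ E p := by
  classical
  obtain ⟨⟨a1, b1⟩, ⟨a2, b2⟩, ⟨x, hx0, hx1⟩⟩ := t
  have ha1 : (a1 : ZMod p) ≠ 0 := a1.ne_zero
  have ha2 : (a2 : ZMod p) ≠ 0 := a2.ne_zero
  have hb1 : (b1 : ZMod p) ≠ 0 := b1.ne_zero
  have hb2 : (b2 : ZMod p) ≠ 0 := b2.ne_zero
  have hx1' : (1 : ZMod p) - x ≠ 0 := fun h => hx1 (sub_eq_zero.1 h).symm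
  have n1 : ((0 : Fin 3), (a1 : ZMod p), (b1 : ZMod p)) ∉
      ({((1 : Fin 3), (a2 : ZMod p), (b2 : ZMod p)),
        ((2 : Fin 3), x / (a1 * a2), (1 - x) / (b1 * b2))} : Finset (V p)) := by
    simp
  have n2 : ((1 : Fin 3), (a2 : ZMod p), (b2 : ZMod p)) ∉
      ({((2 : Fin 3), x / (a1 * a2), (1 - x) / (b1 * b2))} : Finset (V p)) := by
    simp
  rw [E, mem_filter]
  refine ⟨mem_univ _, ?_, ?_, ?_, ?_⟩
  · unfold edge third
    rw [card_insert_of_notMem n1, card_insert_of_notMem n2, card_singleton]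
  · intro v hv w hw h
    simp only [edge, third, mem_insert, mem_singleton] at hv hw
    rcases hv with rfl | rfl | rfl <;> rcases hw with rfl | rfl | rfl <;> first | rfl | simp at h
  · intro v hv
    simp only [edge, third, mem_insert, mem_singleton] at hv
    rcases hv with rfl | rfl | rfl
    · exact ⟨ha1, hb1⟩
    · exact ⟨ha2, hb2⟩
    · exact ⟨div_ne_zero hx0 (mul_ne_zero ha1 ha2), div_ne_zero hx1' (mul_ne_zero hb1 hb2)⟩
  · unfold edge third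
    rw [prod_insert n1, prod_insert n2, prod_singleton, prod_insert n1, prod_insert n2, prod_singleton]
    field_simp
    ring

lemma edge_inj : Function.Injective (edge (p := p)) := by
  classical
  intro t t' h
  have m0 : ((0 : Fin 3), (t.1.1 : ZMod p), (t.1.2 : ZMod p)) ∈ edge t' := by
    rw [← h]; simp [edge]
  have m1 : ((1 : Fin 3), (t.2.1.1 : ZMod p), (t.2.1.2 : ZMod p)) ∈ edge t' := by
    rw [← h]; simp [edge]
  have m2 : third t ∈ edge t' := by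
    rw [← h]; simp [edge]
  simp only [edge, third, mem_insert, mem_singleton, Prod.mk.injEq] at m0 m1 m2
  obtain ⟨⟨a1, b1⟩, ⟨a2, b2⟩, ⟨x, hx0, hx1⟩⟩ := t
  obtain ⟨⟨a1', b1'⟩, ⟨a2', b2'⟩, ⟨x', hx0', hx1'⟩⟩ := t'
  simp only at m0 m1 m2
  have f01 : ¬ ((0 : Fin 3) = 1) := by decide
  have f02 : ¬ ((0 : Fin 3) = 2) := by decide
  have f10 : ¬ ((1 : Fin 3) = 0) := by decide
  have f12 : ¬ ((1 : Fin 3) = 2) := by decide
  have f20 : ¬ ((2 : Fin 3) = 0) := by decide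
  have f21 : ¬ ((2 : Fin 3) = 1) := by decide
  simp only [f01, f02, f10, f12, f20, f21, false_and, or_false, false_or, true_and] at m0 m1 m2
  obtain ⟨h1, h2⟩ := m0
  obtain ⟨h3, h4⟩ := m1
  obtain ⟨h5, -⟩ := m2
  have h1' : a1 = a1' := Units.ext h1
  have h2' : b1 = b1' := Units.ext h2
  have h3' : a2 = a2' := Units.ext h3
  have h4' : b2 = b2' := Units.ext h4
  subst h1' h2' h3' h4'
  have hx : x = x' := by
    have hne : (a1 : ZMod p) * a2 ≠ 0 := mul_ne_zero a1.ne_zero a2.ne_zero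
    field_simp at h5
    exact h5
  subst hx
  rfl

lemma card_Par : Fintype.card (Par p) = (p - 1) ^ 4 * (p - 2) := by
  classical
  have hu : Fintype.card (ZMod p)ˣ = p - 1 := by
    rw [ZMod.card_units]
  have hs : Fintype.card {x : ZMod p // x ≠ 0 ∧ x ≠ 1} = p - 2 := by
    rw [Fintype.card_subtype]
    have : (univ.filter (fun x : ZMod p => x ≠ 0 ∧ x ≠ 1)) = (univ.erase 0).erase 1 := by
      ext x
      simp [and_comm]
    rw [this, card_erase_of_mem, card_erase_of_mem (mem_univ _), card_univ, ZMod.card]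
    · omega
    · simp
  rw [Fintype.card_prod, Fintype.card_prod, Fintype.card_prod, Fintype.card_prod, hu, hs]
  ring

lemma card_E : (p - 1) ^ 4 * (p - 2) ≤ (E p).card := by
  classical
  rw [← card_Par (p := p), ← card_univ]
  exact card_le_card_of_injOn edge (fun t _ => edge_mem t) edge_inj.injOn

end field

/-- The hypergraph as a matrix. -/
lemma matrix_exists (p m : ℕ) [hp : Fact p.Prime] (hm : 3 * p ^ 2 ≤ m) : (p - 1) ^ 4 * (p - 2) ≤ Bh m F := by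
  classical
  refine card_E.trans ?_
  have hcard : Fintype.card (V p) ≤ Fintype.card (Fin m) := by
    rw [Fintype.card_prod, Fintype.card_prod, ZMod.card, Fintype.card_fin, Fintype.card_fin]
    calc 3 * (p * p) = 3 * p ^ 2 := by ring
      _ ≤ m := hm
  obtain ⟨ι⟩ := Function.Embedding.nonempty_of_card_le hcard
  let e : Fin (E p).card ≃ E p := (E p).equivFin.symm
  let A : Matrix (Fin m) (Fin (E p).card) Bool := fun i j => decide (∃ v ∈ (e j).1, ι v = i)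
  have hA : ∀ i j, A i j = true ↔ ∃ v ∈ (e j).1, ι v = i := by
    intro i j
    simp [A]
  apply le_Bh (A := A)
  · intro j j' h
    have hsub : ∀ a b : Fin (E p).card, (∀ i, A i a = A i b) → (e a).1 ⊆ (e b).1 := by
      intro a b h v hv
      have h1 : A (ι v) a = true := (hA _ _).2 ⟨v, hv, rfl⟩
      rw [h] at h1
      obtain ⟨w, hw, hwv⟩ := (hA _ _).1 h1
      rwa [ι.injective hwv] at hw
    have : (e j).1 = (e j').1 := Subset.antisymm (hsub j j' h) (hsub j' j (fun i => (h i).symm))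
    exact e.injective (Subtype.ext this)
  · rintro ⟨r, c, hrc⟩
    have key : ∀ i j, F i j = true → ∃ v ∈ (e (c j)).1, ι v = r i := by
      intro i j hij
      have := hrc i j
      rw [hij] at this
      have h1 : A (r i) (c j) = true := by
        cases h : A (r i) (c j)
        · rw [h] at this
          exact absurd this (by decide)
        · rfl
      exact (hA _ _).1 h1
    have kR : ∀ a b : Fin 2, F (Sum.inl 0) (0, (a, b)) = true := by decide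
    have kX : ∀ a b : Fin 2, F (Sum.inr (Sum.inl a)) (0, (a, b)) = true := by decide
    have kU : ∀ a b : Fin 2, F (Sum.inr (Sum.inr b)) (0, (a, b)) = true := by decide
    -- the vertices
    obtain ⟨R, -, hR⟩ := key _ _ (kR 0 0)
    obtain ⟨X₀, -, hX₀⟩ := key _ _ (kX 0 0)
    obtain ⟨X₁, -, hX₁⟩ := key _ _ (kX 1 0)
    obtain ⟨U₀, -, hU₀⟩ := key _ _ (kU 0 0)
    obtain ⟨U₁, -, hU₁⟩ := key _ _ (kU 0 1)
    have mem : ∀ i j (v : V p), F i j = true → ι v = r i → v ∈ (e (c j)).1 := by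
      intro i j v hij hv
      obtain ⟨w, hw, hwi⟩ := key i j hij
      rw [← hv] at hwi
      rwa [ι.injective hwi] at hw
    have ne : ∀ i i' (v w : V p), i ≠ i' → ι v = r i → ι w = r i' → v ≠ w := by
      intro i i' v w hii hv hw h
      rw [h, hw] at hv
      exact hii (r.injective hv).symm
    exact no_box R X₀ X₁ U₀ U₁
      (ne _ _ _ _ (by decide) hR hX₀) (ne _ _ _ _ (by decide) hR hX₁)
      (ne _ _ _ _ (by decide) hR hU₀) (ne _ _ _ _ (by decide) hR hU₁)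
      (ne _ _ _ _ (by decide) hX₀ hU₀) (ne _ _ _ _ (by decide) hX₀ hU₁)
      (ne _ _ _ _ (by decide) hX₁ hU₀) (ne _ _ _ _ (by decide) hX₁ hU₁)
      (ne _ _ _ _ (by decide) hX₀ hX₁) (ne _ _ _ _ (by decide) hU₀ hU₁)
      (e (c (0, (0, 0)))).2 (e (c (0, (0, 1)))).2 (e (c (0, (1, 0)))).2 (e (c (0, (1, 1)))).2
      ⟨mem _ _ _ (kR 0 0) hR, mem _ _ _ (kX 0 0) hX₀, mem _ _ _ (kU 0 0) hU₀⟩
      ⟨mem _ _ _ (kR 0 1) hR, mem _ _ _ (kX 0 1) hX₀, mem _ _ _ (kU 0 1) hU₁⟩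
      ⟨mem _ _ _ (kR 1 0) hR, mem _ _ _ (kX 1 0) hX₁, mem _ _ _ (kU 1 0) hU₀⟩
      ⟨mem _ _ _ (kR 1 1) hR, mem _ _ _ (kX 1 1) hX₁, mem _ _ _ (kU 1 1) hU₁⟩

/-- The lower bound for every `m`. -/
lemma lower (m : ℕ) (hm : 48 ≤ m) : (1 / 8000 : ℝ) * (m : ℝ) ^ (5 / 2 : ℝ) ≤ Bh m F := by
  set x := Nat.sqrt (m / 12) with hx
  have hx2 : 2 ≤ x := by
    rw [hx, Nat.le_sqrt]
    omega
  obtain ⟨p, hp, hxp, hp2⟩ := Nat.exists_prime_lt_and_le_two_mul x (by omega)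
  have : Fact p.Prime := ⟨hp⟩
  have hx1 : x * x ≤ m / 12 := Nat.sqrt_le (m / 12)
  have hpm : 3 * p ^ 2 ≤ m := by
    have h1 : p ^ 2 ≤ (2 * x) ^ 2 := Nat.pow_le_pow_left hp2 2
    have h2 : (2 * x) ^ 2 = 4 * (x * x) := by ring
    omega
  have hB := matrix_exists p m hpm
  have hlow : (m / 12 : ℕ) < (x + 1) * (x + 1) := Nat.lt_succ_sqrt (m / 12)
  have hmp : m < 12 * p ^ 2 := by
    have h1 : (x + 1) * (x + 1) ≤ p * p := Nat.mul_le_mul hxp hxp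
    have h2 : p ^ 2 = p * p := by ring
    omega
  have hp3 : 3 ≤ p := by omega
  obtain ⟨q, rfl⟩ : ∃ q, p = q + 3 := ⟨p - 3, by omega⟩
  have hB' : (((q + 3 - 1) ^ 4 * (q + 3 - 2) : ℕ) : ℝ) ≤ Bh m F := by exact_mod_cast hB
  have e1 : q + 3 - 1 = q + 2 := by omega
  have e2 : q + 3 - 2 = q + 1 := by omega
  rw [e1, e2] at hB'
  push_cast at hB'
  refine le_trans ?_ hB'
  have hq : (0 : ℝ) ≤ q := Nat.cast_nonneg q
  have h5 : ((q : ℝ) + 3) ^ 5 ≤ 16 * (((q : ℝ) + 2) ^ 4 * (q + 1)) := by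
    have a1 : (q : ℝ) + 3 ≤ 3 / 2 * (q + 2) := by linarith
    have a2 : (q : ℝ) + 3 ≤ 3 * (q + 1) := by linarith
    have a3 : ((q : ℝ) + 3) ^ 4 ≤ (3 / 2 * ((q : ℝ) + 2)) ^ 4 := pow_le_pow_left₀ (by positivity) a1 4
    calc ((q : ℝ) + 3) ^ 5 = ((q : ℝ) + 3) ^ 4 * (q + 3) := by ring
      _ ≤ (3 / 2 * ((q : ℝ) + 2)) ^ 4 * (3 * (q + 1)) :=
          mul_le_mul a3 a2 (by positivity) (by positivity)
      _ = (243 / 16) * (((q : ℝ) + 2) ^ 4 * (q + 1)) := by ring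
      _ ≤ 16 * (((q : ℝ) + 2) ^ 4 * (q + 1)) := by
          apply mul_le_mul_of_nonneg_right _ (by positivity)
          norm_num
  have hmR : (m : ℝ) ≤ 12 * ((q : ℝ) + 3) ^ 2 := by
    have : (m : ℝ) < ((12 * (q + 3) ^ 2 : ℕ) : ℝ) := by exact_mod_cast hmp
    push_cast at this
    exact this.le
  have h6 : (m : ℝ) ^ (5 / 2 : ℝ) ≤ 500 * ((q : ℝ) + 3) ^ 5 := by
    have b1 : (m : ℝ) ^ (5 / 2 : ℝ) ≤ (12 * ((q : ℝ) + 3) ^ 2) ^ (5 / 2 : ℝ) :=
      Real.rpow_le_rpow (Nat.cast_nonneg m) hmR (by norm_num)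
    have b2 : (12 * ((q : ℝ) + 3) ^ 2) ^ (5 / 2 : ℝ) = 12 ^ (5 / 2 : ℝ) * ((q : ℝ) + 3) ^ 5 := by
      rw [Real.mul_rpow (by norm_num) (by positivity), ← Real.rpow_natCast (_ : ℝ) 2, ← Real.rpow_mul (by positivity)]
      norm_num
    have b3 : (12 : ℝ) ^ (5 / 2 : ℝ) ≤ 500 := by
      have c1 : ((12 : ℝ) ^ (5 / 2 : ℝ)) ^ 2 ≤ (500 : ℝ) ^ 2 := by
        rw [← Real.rpow_natCast, ← Real.rpow_mul (by norm_num)]
        norm_num
      exact (pow_le_pow_iff_left₀ (by positivity) (by norm_num) (by norm_num)).1 c1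
    rw [b2] at b1
    exact b1.trans (mul_le_mul_of_nonneg_right b3 (by positivity))
  calc (1 / 8000 : ℝ) * (m : ℝ) ^ (5 / 2 : ℝ) ≤ 1 / 8000 * (500 * ((q : ℝ) + 3) ^ 5) := by
        apply mul_le_mul_of_nonneg_left h6 (by norm_num)
    _ = (1 / 16) * ((q : ℝ) + 3) ^ 5 := by ring
    _ ≤ (1 / 16) * (16 * (((q : ℝ) + 2) ^ 4 * (q + 1))) := mul_le_mul_of_nonneg_left h5 (by norm_num)
    _ = ((q : ℝ) + 2) ^ 4 * (q + 1) := by ring

/-- **Result.** `Bh(m, 1_1 × C_4) ≥ m ^ (5/2) / 8000` for all `m ≥ 48`. Hence `Bh(m, 1_1 × C_4) / m ^ 2` is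
unbounded, and `Bh(m, 1_1 × C_4)` is not `Θ(m ^ 2)`. -/
theorem result :
    (∀ m : ℕ, 48 ≤ m → (1 / 8000 : ℝ) * (m : ℝ) ^ (5 / 2 : ℝ) ≤ Bh m F) ∧
    (∀ C : ℝ, ∃ m₀ : ℕ, ∀ m : ℕ, m₀ ≤ m → C * (m : ℝ) ^ 2 < Bh m F) ∧
    ¬ ((fun m : ℕ => (Bh m F : ℝ)) =Θ[atTop] fun m : ℕ => (m : ℝ) ^ 2) := by
  have h2 : ∀ C : ℝ, ∃ m₀ : ℕ, ∀ m : ℕ, m₀ ≤ m → C * (m : ℝ) ^ 2 < Bh m F := by
    intro C
    have ht : Tendsto (fun m : ℕ => (m : ℝ) ^ (1 / 2 : ℝ)) atTop atTop :=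
      (tendsto_rpow_atTop (by norm_num)).comp tendsto_natCast_atTop_atTop
    obtain ⟨m₁, hm₁⟩ := eventually_atTop.1 (ht.eventually_gt_atTop (8000 * C))
    refine ⟨max m₁ 48, fun m hm => ?_⟩
    have h1 := hm₁ m (le_trans (le_max_left _ _) hm)
    have h3 : 48 ≤ m := le_trans (le_max_right _ _) hm
    have hmpos : (0 : ℝ) < m := by
      have : 0 < m := by omega
      exact_mod_cast this
    refine lt_of_lt_of_le ?_ (lower m h3)
    have e : (m : ℝ) ^ (5 / 2 : ℝ) = (m : ℝ) ^ (1 / 2 : ℝ) * (m : ℝ) ^ 2 := by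
      rw [← Real.rpow_natCast, ← Real.rpow_add hmpos]
      norm_num
    rw [e]
    have : 8000 * C * (m : ℝ) ^ 2 < (m : ℝ) ^ (1 / 2 : ℝ) * (m : ℝ) ^ 2 :=
      mul_lt_mul_of_pos_right h1 (by positivity)
    linarith
  refine ⟨lower, h2, ?_⟩
  intro h
  obtain ⟨C, hC⟩ := h.1.bound
  obtain ⟨m₀, h0⟩ := h2 C
  obtain ⟨m₁, h1⟩ := eventually_atTop.1 hC
  have a := h0 (max m₀ m₁) (le_max_left _ _)
  have b := h1 (max m₀ m₁) (le_max_right _ _)
  rw [Real.norm_of_nonneg (by positivity), Real.norm_of_nonneg (by positivity)] at b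
  linarith

end Pool.Agent.Results.MP_4da166_co.FiveHalves
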